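import Pool.Agent.Helper15.UL.GoalsE

/-!
# MP_57a173_lc, packet SIGC (helper40)

The Borel sets with codes in the ground model are closed under countable unions.
-/

noncomputable section

namespace UL.PkSIGC

open Pool.Agent.Helper97.Ku NU MeasureTheory UL

/-! ### Boolean algebra -/

section Alg

variable {L : Type} [CompleteBooleanAlgebra L]

theorem le_iffV {e a b : L} : e ≤ iffV a b ↔ e ⊓ a ≤ b ∧ e ⊓ b ≤ a := by
  unfold iffV
  rw [le_inf_iff, le_himp_iff, le_himp_iff]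

theorem alg1 {κ : Type} (e t : L) (D C : κ → L) (k : κ) (h1 : e ≤ D k)
    (h2 : ∀ k', k' ≠ k → e ≤ (D k')ᶜ) (h3 : e ≤ iffV t (C k)) :
    e ≤ iffV t (⨆ k', D k' ⊓ C k') := by
  rw [le_iffV] at h3 ⊢
  constructor
  · refine le_trans ?_ (le_iSup (fun k' => D k' ⊓ C k') k)
    exact le_inf (inf_le_left.trans h1) h3.1
  · rw [inf_iSup_eq]
    refine iSup_le fun k' => ?_
    by_cases hk : k' = k
    · subst hk
      exact (inf_le_inf_left e inf_le_right).trans h3.2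
    · calc e ⊓ (D k' ⊓ C k') ≤ (D k')ᶜ ⊓ D k' := inf_le_inf (h2 k' hk) inf_le_left
        _ = ⊥ := by rw [inf_comm, inf_compl_eq_bot]
        _ ≤ t := bot_le

theorem alg2 {κ : Type} (e : L) (a b : κ → L) (h : ∀ k, e ≤ iffV (a k) (b k)) :
    e ≤ iffV (⨆ k, a k) (⨆ k, b k) := by
  rw [le_iffV]
  constructor
  · rw [inf_iSup_eq]
    exact iSup_mono fun k => (le_iffV.1 (h k)).1
  · rw [inf_iSup_eq]
    exact iSup_mono fun k => (le_iffV.1 (h k)).2

/-- Conjunction. -/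
def pand {J : Type} (a b : PF J) : PF J := PF.neg (PF.or fun m => if m = 0 then PF.neg a else PF.neg b)

theorem pand_ev {J : Type} (v : J → L) (a b : PF J) :
    (pand a b).ev v = a.ev v ⊓ b.ev v := by
  have : (⨆ m : ℕ, (if m = 0 then PF.neg a else PF.neg b).ev v) = (a.ev v)ᶜ ⊔ (b.ev v)ᶜ := by
    apply le_antisymm
    · refine iSup_le fun m => ?_
      split_ifs
      · exact le_sup_left
      · exact le_sup_right
    · refine sup_le ?_ ?_
      · exact le_iSup_of_le 0 (by rw [if_pos rfl]; exact le_rfl)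
      · exact le_iSup_of_le 1 (by rw [if_neg one_ne_zero]; exact le_rfl)
  change (⨆ m : ℕ, (if m = 0 then PF.neg a else PF.neg b).ev v)ᶜ = _
  rw [this, compl_sup, compl_compl, compl_compl]

/-- The double countable disjunction of `d n k ∧ c n k`. -/
def form {J : Type} (d c : ℕ → ℕ → PF J) : PF J :=
  PF.or fun p => pand (d p.unpair.1 p.unpair.2) (c p.unpair.1 p.unpair.2)

theorem form_ev {J : Type} (v : J → L) (d c : ℕ → ℕ → PF J) :
    (form d c).ev v = ⨆ n, ⨆ k, ((d n k).ev v ⊓ (c n k).ev v) := by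
  have h : (form d c).ev v = ⨆ p : ℕ, ((d p.unpair.1 p.unpair.2).ev v ⊓
      (c p.unpair.1 p.unpair.2).ev v) := iSup_congr fun p => pand_ev v _ _
  rw [h]
  apply le_antisymm
  · exact iSup_le fun p => le_iSup₂_of_le p.unpair.1 p.unpair.2 le_rfl
  · refine iSup₂_le fun n k => le_iSup_of_le (Nat.pair n k) ?_
    rw [Nat.unpair_pair]

end Alg

variable {I : Type} [LinearOrder I]

theorem Fc_iff_pr {ω : Pt I → Pt I} (hω : IsM ω) (a : BA I) : Fc ω a ↔ pr ω ≤ a :=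
  ⟨fun h => pr_le h, fun h => (fc_pr hω).mono h⟩

theorem fc_alg1 {ω : Pt I → Pt I} (hω : IsM ω) {κ : Type} (t : BA I) (D C : κ → BA I) (k : κ)
    (h1 : Fc ω (D k)) (h2 : ∀ k', k' ≠ k → Fc ω (D k')ᶜ) (h3 : Fc ω (iffV t (C k))) :
    Fc ω (iffV t (⨆ k', D k' ⊓ C k')) := by
  rw [Fc_iff_pr hω] at *
  exact alg1 _ _ D C k h1 (fun k' hk => pr_le (h2 k' hk)) h3

theorem fc_alg2 {ω : Pt I → Pt I} (hω : IsM ω) {κ : Type} (a b : κ → BA I)
    (h : ∀ k, Fc ω (iffV (a k) (b k))) : Fc ω (iffV (⨆ k, a k) (⨆ k, b k)) := by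
  rw [Fc_iff_pr hω]
  exact alg2 _ _ _ fun k => pr_le (h k)

/-! ### The first index -/

section Idx

variable {I : Type}

theorem LC_mem {τ : I → Str} (h : (Sp τ).Finite) : LC Set.univ (fun z : Pt I => z ∈ B τ) := by
  classical
  refine ⟨Sp τ, Set.subset_univ _, h.countable, fun z => ⟨h.toFinset, by simp,
    h.toFinset.sup (fun ξ => (τ ξ).length), fun z' hz' => ?_⟩⟩
  have key : ∀ ξ i, i < (τ ξ).length → z' ξ i = z ξ i := by
    intro ξ i hi
    have hξ : ξ ∈ Sp τ := by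
      intro hc
      have hc' : τ ξ = [] := hc
      rw [hc'] at hi
      simp at hi
    exact hz' ξ (by simpa using hξ) i (lt_of_lt_of_le hi
      (Finset.le_sup (f := fun ξ => (τ ξ).length) (by simpa using hξ)))
  apply propext
  constructor
  · intro h ξ i hi
    rw [← key ξ i hi]; exact h ξ i hi
  · intro h ξ i hi
    rw [key ξ i hi]; exact h ξ i hi

theorem LC_list {β : Type} (f : ℕ → Pt I → β) (h : ∀ l, LC Set.univ (f l)) (k : ℕ) :
    LC Set.univ (fun z => fun l : Fin k => f l z) := by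
  induction k with
  | zero =>
    have : (fun z : Pt I => fun l : Fin 0 => f l z) = fun _ => Fin.elim0 := by
      funext z l; exact l.elim0
    rw [this]
    exact LC.const _
  | succ k ih =>
    have := ih.map₂ (h k) (fun (p : Fin k → β) (b : β) => (Fin.snoc p b : Fin (k+1) → β))
    convert this using 1
    funext z l
    refine Fin.lastCases ?_ (fun j => ?_) l
    · simp
    · simp

variable (τ : ℕ → I → Str) (h2 : ∀ z : Pt I, ∃ l, z ∈ B (τ l))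

open Classical in
/-- The first index. -/
def idx (z : Pt I) : ℕ := Nat.find (h2 z)

open Classical in
theorem idx_mem (z : Pt I) : z ∈ B (τ (idx τ h2 z)) := Nat.find_spec (h2 z)

open Classical in
theorem idx_eq {z z' : Pt I} (h : ∀ l, l < idx τ h2 z + 1 → (z' ∈ B (τ l) ↔ z ∈ B (τ l))) :
    idx τ h2 z' = idx τ h2 z := by
  unfold idx at *
  rw [Nat.find_eq_iff]
  constructor
  · exact (h _ (Nat.lt_succ_self _)).2 (Nat.find_spec (h2 z))
  · intro m hm hc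
    exact Nat.find_min (h2 z) hm ((h m (by omega)).1 hc)

theorem idx_LC (h1 : ∀ l, (Sp (τ l)).Finite) : LC Set.univ (idx τ h2) := by
  refine ⟨⋃ l, Sp (τ l), Set.subset_univ _, Set.countable_iUnion fun l => (h1 l).countable,
    fun z => ?_⟩
  classical
  refine ⟨(Finset.range (idx τ h2 z + 1)).biUnion fun l => (h1 l).toFinset, ?_,
    (Finset.range (idx τ h2 z + 1)).sup fun l => (h1 l).toFinset.sup fun ξ => (τ l ξ).length,
    fun z' hz' => idx_eq τ h2 fun l hl => ?_⟩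
  · intro ξ hξ
    simp only [Finset.coe_biUnion, Set.mem_iUnion] at hξ
    obtain ⟨l, -, hl⟩ := hξ
    exact Set.mem_iUnion.2 ⟨l, by simpa using hl⟩
  · have key : ∀ ξ i, i < (τ l ξ).length → z' ξ i = z ξ i := by
      intro ξ i hi
      have hξ : ξ ∈ (h1 l).toFinset := by
        rw [Set.Finite.mem_toFinset]
        intro hc
        have hc' : τ l ξ = [] := hc
        rw [hc'] at hi
        simp at hi
      refine hz' ξ (Finset.mem_biUnion.2 ⟨l, Finset.mem_range.2 hl, hξ⟩) i ?_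
      refine lt_of_lt_of_le hi ?_
      refine le_trans (Finset.le_sup (f := fun ξ => (τ l ξ).length) hξ) ?_
      exact Finset.le_sup (f := fun l => (h1 l).toFinset.sup fun ξ => (τ l ξ).length)
        (Finset.mem_range.2 hl)
    constructor
    · intro h ξ i hi
      rw [← key ξ i hi]; exact h ξ i hi
    · intro h ξ i hi
      rw [key ξ i hi]; exact h ξ i hi

end Idx

theorem measurable_bit (ξ : I) (i : ℕ) : MeasurableSet {z : Pt I | z ξ i = true} := by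
  have h : Measurable (fun z : Pt I => (z ξ : ℕ → Bool) i) :=
    (measurable_pi_apply i).comp (measurable_subtype_coe.comp (measurable_pi_apply ξ))
  exact h (measurableSet_singleton true)

/-- Forced truth values at a condition which represents `r`. -/
theorem dec [WellFoundedLT I] (hDCC : G_DCC) (hMES : G_MES) (hHF : HF I)
    {ω : Pt I → Pt I} (hω : IsM ω) {r : ℕ → BA I} {x : Pt I → ℕ → Bool}
    (hx : ∀ k, LC Set.univ (fun z => x z k)) (hr : ∀ k, Dc ω (r k) {z | x z k = true})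
    (c : PF (ℕ ⊕ (I × ℕ))) : Dc ω (c.ev (at2 r)) {z | c.tr (tv2 (x z) (ω z))} := by
  refine (hDCC I hHF ω hω).2.1 (ℕ ⊕ (I × ℕ)) (at2 r) (fun k => {z | tv2 (x z) (ω z) k}) ?_ ?_ c
  · rintro (n | j)
    · exact (hMES I).1 Bool (fun z => x z n) (hx n) {true}
    · exact (hMES I).2.1 ω hω (measurable_bit j.1 j.2)
  · rintro (n | j)
    · exact hr n
    · exact Dc.gv hω j

/-- The main step. -/
theorem step [WellFoundedLT I] (hDCC : G_DCC) (hREP : G_REP) (hMES : G_MES) (hHF : HF I)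
    {ω : Pt I → Pt I} (hω : IsM ω) (τ : ℕ → I → Str) (h2 : ∀ z : Pt I, ∃ l, z ∈ B (τ l))
    (h1 : ∀ l, (Sp (τ l)).Finite) (d c : ℕ → PF (ℕ ⊕ (I × ℕ))) (r : ℕ → BA I) (b t : BA I)
    (hd : ∀ k x z, (d k).tr (tv2 x (ω z)) ↔ idx τ h2 z = k)
    (hc : ∀ l, Fc (ω ∘ J (τ l)) (b ⇨ iffV t ((c l).ev (at2 r))))
    {χ : Pt I → Pt I} (hχ : IsM χ) (hb : Fc (ω ∘ χ) b) :
    Fc (ω ∘ χ) (iffV t (⨆ k, (d k).ev (at2 r) ⊓ (c k).ev (at2 r))) := by
  refine Fc.loc (hω.comp hχ) ?_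
  have hLC : LC Set.univ (fun z => idx τ h2 (χ z)) :=
    LC.comp (fun _ _ _ _ => Set.mem_univ _) (idx_LC τ h2 h1) hχ
  obtain ⟨A, hA, hAc, h3⟩ := LC_iff.1 hLC
  refine ⟨A, hA, hAc, fun z => ?_⟩
  obtain ⟨ρ, hρ, hρA, hzρ, h4⟩ := h3 z
  refine ⟨ρ, hρ, hρA, hzρ, ?_⟩
  set k := idx τ h2 (χ z) with hk
  have hJρ : IsM (J ρ) := J_isM hρ
  have hχρ : IsM (χ ∘ J ρ) := hχ.comp hJρ
  have h5 : ∀ w, idx τ h2 (χ (J ρ w)) = k := fun w => h4 _ (J_mem_B ρ w)
  have h6 : ∀ w, (χ ∘ J ρ) w ∈ B (τ k) := fun w => by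
    have := idx_mem τ h2 (χ (J ρ w))
    rw [h5 w] at this
    exact this
  obtain ⟨g', hg', e', -⟩ := hχρ.strip (h1 k).countable h6
  refine Fc.dense ((hω.comp hχ).comp hJρ) fun g hg => ?_
  obtain ⟨χ₂, hχ₂, x, hx, hr⟩ := hREP I hHF ℕ r (ω ∘ χ ∘ J ρ ∘ g)
    (hω.comp (hχ.comp (hJρ.comp hg)))
  refine ⟨χ₂, hχ₂, ?_⟩
  have hM : IsM (ω ∘ χ ∘ J ρ ∘ g ∘ χ₂) := hω.comp (hχ.comp (hJρ.comp (hg.comp hχ₂)))
  have hr' : ∀ m, Dc (ω ∘ χ ∘ J ρ ∘ g ∘ χ₂) (r m) {z | x z m = true} := hr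
  have hD : ∀ k', Dc (ω ∘ χ ∘ J ρ ∘ g ∘ χ₂) ((d k').ev (at2 r)) {_z | k = k'} := fun k' => by
    refine (dec hDCC hMES hHF hM hx hr' (d k')).congr fun z => ?_
    change (d k').tr (tv2 (x z) (ω (χ (J ρ (g (χ₂ z)))))) ↔ k = k'
    rw [hd, h5]
  change Fc (ω ∘ χ ∘ J ρ ∘ g ∘ χ₂) _
  refine fc_alg1 hM t (fun k => (d k).ev (at2 r)) (fun k => (c k).ev (at2 r)) k ?_ ?_ ?_
  · exact (hD k).fc fun z => rfl
  · intro k' hk'
    exact (hD k').fc_compl fun z hz => hk' (Eq.symm hz)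
  · have e1 : ω ∘ χ ∘ J ρ ∘ g ∘ χ₂ = (ω ∘ J (τ k)) ∘ (g' ∘ (g ∘ χ₂)) := by
      have : χ ∘ J ρ ∘ g ∘ χ₂ = (χ ∘ J ρ) ∘ (g ∘ χ₂) := rfl
      rw [this, e']; rfl
    rw [e1]
    refine (Fc.himp_iff.1 (hc k)).2 _ (hg'.comp (hg.comp hχ₂)) ?_
    rw [← e1]
    exact hb.comp (hJρ.comp (hg.comp hχ₂))

theorem thm : G_INV → G_COD → G_REP → G_DCC → G_MES → G_SIGC := by
  intro hINV hCOD hREP hDCC hMES I _ _ hHF ι B r t b hb ht
  obtain ⟨φ, hφ⟩ := Fc.ne_bot_iff.1 hb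
  -- the fusion principle
  let Q : ℕ → (Pt I → Pt I) → Prop := fun n g =>
    ∃ c : PF (ℕ ⊕ (I × ℕ)), Fc (φ ∘ g) (⨅ i, (B i ⇨ iffV (t n i) (c.ev (at2 (r i)))))
  have hdns : ∀ n, Dns Set.univ (Q n) := by
    intro n f hf
    have h1 : Fc (φ ∘ f) (⨆ c : PF (ℕ ⊕ (I × ℕ)),
        ⨅ i, (B i ⇨ iffV (t n i) (c.ev (at2 (r i))))) := (hφ.comp hf.1).mono (ht n)
    obtain ⟨k, hk, c, hc⟩ := (Fc.iSup_iff.1 h1).2 id IsM.id'
    exact ⟨k, MD_univ.2 hk, c, hc⟩
  have hopn : ∀ n, Opn Set.univ (Q n) := by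
    rintro n f g hf ⟨c, hc⟩ hg
    exact ⟨c, hc.comp hg.1⟩
  obtain ⟨g, hg, -, hcov⟩ := hHF Set.univ (fun _ => 0) (fun _ _ _ _ => Set.mem_univ _)
    (by simp [Fin0]) (fun _ _ => rfl) Q hdns hopn
  have hω : IsM (φ ∘ g) := hφ.1.comp hg.1
  set ω : Pt I → Pt I := φ ∘ g with hωdef
  have henum := fun n => (hcov n).enum
  choose τ hτ hτc using henum
  choose hτ1 hτ2 c hc using hτ
  -- the formulas `d`
  have hdex : ∀ n k, ∃ d : PF (ℕ ⊕ (I × ℕ)), ∀ x z,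
      d.tr (tv2 x (ω z)) ↔ idx (τ n) (hτc n) z = k := by
    intro n k
    have hSm : MeasurableSet {p : (ℕ → Bool) × Pt I | idx (τ n) (hτc n) p.2 = k} := by
      have h1 := (hMES I).1 ℕ (idx (τ n) (hτc n)) (idx_LC (τ n) (hτc n) (hτ1 n)) {k}
      exact measurable_snd h1
    obtain ⟨T, hT1, hT2, hT3⟩ := hINV I Set.univ (fun _ _ _ _ => Set.mem_univ _) ω hω _ hSm
      (fun x z z' h => by
        have : z = z' := funext fun ξ => h ξ (Set.mem_univ ξ)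
        rw [this])
    obtain ⟨d, hd⟩ := hCOD.1 I Set.univ T hT1 hT2
    exact ⟨_, fun x z => (hd x (ω z)).symm.trans (hT3 x z)⟩
  choose d hd using hdex
  refine ⟨pr ω, pr_le (hφ.comp hg.1), pr_ne_bot hω, form d c, ?_⟩
  refine pr_le (Fc.iInf_iff.2 ⟨hω, fun i => Fc.himp_iff.2 ⟨hω, fun χ hχ hB => ?_⟩⟩)
  rw [form_ev]
  refine fc_alg2 (hω.comp hχ) _ _ fun n => ?_
  exact step hDCC hREP hMES hHF hω (τ n) (hτc n) (hτ1 n) (d n) (c n) (r i) (B i) (t n i) (hd n)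
    (fun l => (Fc.iInf_iff.1 (hc n l)).2 i) hχ hB

end UL.PkSIGC
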